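import Pool.Agent.U722.FF.Stm

set_option autoImplicit false
set_option linter.unusedSectionVars false

/-! Project FF, package IND: induced modules. -/

namespace Pool.Agent.U678.FFP

open TH57.FF U722.FF Matrix MulAction

section hom

variable {R : Type} [Ring R]

theorem FR_succ : ∀ (n : ℕ) (M : Type) [AddCommGroup M] [Module R M], FR R n M → FR R (n + 1) M
  | 0, M, _, _, h => by
    obtain ⟨h1, h2⟩ := h
    let b := Module.Free.chooseBasis R M
    refine ⟨Module.Free.ChooseBasisIndex R M, inferInstance, b.equivFun.symm.toLinearMap,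
      b.equivFun.symm.surjective, ?_⟩
    have hk : LinearMap.ker b.equivFun.symm.toLinearMap = ⊥ :=
      LinearMap.ker_eq_bot.2 b.equivFun.symm.injective
    rw [hk]
    exact ⟨inferInstance, inferInstance⟩
  | n + 1, M, _, _, h => by
    obtain ⟨ι, i1, f, hf, h1⟩ := h
    exact ⟨ι, i1, f, hf, FR_succ n _ h1⟩

/-- a linear map on row vectors given by a matrix -/
theorem vecMul_rows {ι κ : Type} [Fintype ι] [DecidableEq ι] {M : Submodule R (κ → R)}
    (f : (ι → R) →ₗ[R] M) (x : ι → R) :
    x ᵥ* (Matrix.of fun i => ((f (Pi.single i 1) : M) : κ → R)) = (f x : κ → R) := by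
  have h1 : x = ∑ i, x i • (Pi.single i (1 : R) : ι → R) := by
    funext j
    simp [Finset.sum_apply, Pi.single_apply]
  conv_rhs => rw [h1]
  rw [map_sum, AddSubmonoidClass.coe_finsetSum, Matrix.vecMul_eq_sum]
  refine Finset.sum_congr rfl fun i _ => ?_
  rw [map_smul]
  rfl

theorem Res_of_FR : ∀ (n : ℕ) {κ : Type} [Fintype κ] (M : Submodule R (κ → R)), FR R n M →
    ∃ (ι : Type) (_ : Fintype ι) (A : Matrix ι κ R), Im A = M ∧ Res n A
  | 0, κ, _, M, h => by
    classical
    obtain ⟨h1, h2⟩ := h
    let b := Module.Free.chooseBasis R M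
    refine ⟨Module.Free.ChooseBasisIndex R M, inferInstance,
      Matrix.of fun i => ((b.equivFun.symm.toLinearMap (Pi.single i 1) : M) : κ → R), ?_, ?_⟩
    · ext v
      constructor
      · rintro ⟨x, rfl⟩
        rw [Matrix.vecMulLinear_apply, vecMul_rows]
        exact Subtype.property _
      · intro hv
        refine ⟨b.equivFun ⟨v, hv⟩, ?_⟩
        rw [Matrix.vecMulLinear_apply, vecMul_rows]
        simp
    · intro x hx
      rw [vecMul_rows] at hx
      have h3 : b.equivFun.symm.toLinearMap x = 0 := Subtype.ext hx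
      have h4 : b.equivFun.symm x = b.equivFun.symm 0 := by
        rw [map_zero]
        exact h3
      exact b.equivFun.symm.injective h4
  | n + 1, κ, _, M, h => by
    classical
    obtain ⟨ι, i1, f, hf, h1⟩ := h
    obtain ⟨l, i2, Y, h2, h3⟩ := Res_of_FR n (LinearMap.ker f) h1
    refine ⟨ι, i1, Matrix.of fun i => ((f (Pi.single i 1) : M) : κ → R), ?_, l, i2, Y, ?_, h3⟩
    · ext v
      constructor
      · rintro ⟨x, rfl⟩
        rw [Matrix.vecMulLinear_apply, vecMul_rows]
        exact Subtype.property _
      · intro hv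
        obtain ⟨x, hx⟩ := hf ⟨v, hv⟩
        refine ⟨x, ?_⟩
        rw [Matrix.vecMulLinear_apply, vecMul_rows, hx]
    · intro x
      rw [vecMul_rows]
      have h4 : ((f x : M) : κ → R) = 0 ↔ x ∈ LinearMap.ker f := by
        rw [LinearMap.mem_ker]
        constructor
        · intro h5
          exact Subtype.ext h5
        · intro h5
          rw [h5]
          rfl
      rw [h4, ← h2]
      rfl

end hom

section rb

variable {Γ : Type} [Group Γ] {K : Type} [Group K] (f : K →* Γ) (hf : Function.Injective f)

theorem coeff_map (x : MonoidAlgebra ℤ K) (k : K) (hf : Function.Injective f) :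
    (MonoidAlgebra.mapDomainRingHom ℤ f x).coeff (f k) = x.coeff k := by
  rw [MonoidAlgebra.mapDomainRingHom_apply, MonoidAlgebra.coeff_mapDomain,
    Finsupp.mapDomain_apply hf]

theorem coeff_map_not (x : MonoidAlgebra ℤ K) (g : Γ) (hg : g ∉ f.range) :
    (MonoidAlgebra.mapDomainRingHom ℤ f x).coeff g = 0 := by
  rw [MonoidAlgebra.mapDomainRingHom_apply, MonoidAlgebra.coeff_mapDomain,
    Finsupp.mapDomain_of_notMem_range]
  rintro ⟨k, hk⟩
  exact hg ⟨k, hk⟩

theorem RB_group (hf : Function.Injective f) : RB (MonoidAlgebra.mapDomainRingHom ℤ f)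
    (Γ ⧸ f.range) (fun q => MonoidAlgebra.single q.out (1 : ℤ)) where
  span := by
    classical
    intro v
    induction v using MonoidAlgebra.induction_linear with
    | zero => exact ⟨0, by simp⟩
    | add x y hx hy =>
      obtain ⟨w, hw⟩ := hx
      obtain ⟨w', hw'⟩ := hy
      refine ⟨w + w', ?_⟩
      rw [Finsupp.sum_add_index', hw, hw']
      · intro a; rw [map_zero, mul_zero]
      · intro a b c; rw [map_add, mul_add]
    | single g z =>
      have h1 : (QuotientGroup.mk g : Γ ⧸ f.range).out⁻¹ * g ∈ f.range := by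
        rw [← QuotientGroup.eq]
        exact Quotient.out_eq _
      obtain ⟨k, hk⟩ := h1
      refine ⟨Finsupp.single (QuotientGroup.mk g) (MonoidAlgebra.single k z), ?_⟩
      rw [Finsupp.sum_single_index (by rw [map_zero, mul_zero]),
        MonoidAlgebra.mapDomainRingHom_apply, MonoidAlgebra.mapDomain_single,
        MonoidAlgebra.single_mul_single, one_mul, hk, mul_inv_cancel_left]
  indep := by
    classical
    intro w hw
    ext q k
    have h2 := congrArg (fun x : MonoidAlgebra ℤ Γ => x.coeff (q.out * f k)) hw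
    simp only [Finsupp.sum, MonoidAlgebra.coeff_sum, Finsupp.finsetSum_apply,
      MonoidAlgebra.coeff_zero, Finsupp.zero_apply, MonoidAlgebra.coeff_single_mul_apply,
      one_mul] at h2
    rw [Finset.sum_eq_single q] at h2
    · rw [inv_mul_cancel_left, coeff_map f _ _ hf] at h2
      rw [h2]
      rfl
    · intro q' _ hq'
      apply coeff_map_not
      intro h3
      apply hq'
      rw [← mul_assoc] at h3
      have h4 : q'.out⁻¹ * q.out ∈ f.range := by
        have := f.range.mul_mem h3 (f.range.inv_mem ⟨k, rfl⟩)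
        rwa [mul_inv_cancel_right] at this
      have h5 : (QuotientGroup.mk q'.out : Γ ⧸ f.range) = QuotientGroup.mk q.out :=
        QuotientGroup.eq.2 h4
      have e1 : (QuotientGroup.mk q'.out : Γ ⧸ f.range) = q' := Quotient.out_eq _
      have e2 : (QuotientGroup.mk q.out : Γ ⧸ f.range) = q := Quotient.out_eq _
      rw [e1, e2] at h5
      exact h5
    · intro hq
      rw [Finsupp.notMem_support_iff.1 hq, map_zero]
      rfl

end rb

section ind

variable {G X : Type} [Group G] [MulAction G X] (x : X)

/-- the coefficient -/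
noncomputable def co (G : Type) {X : Type} (y : X) : PM G X →+ ℤ := Finsupp.applyAddHom y

theorem co_pt (G : Type) {X : Type} [DecidableEq X] (y z : X) :
    co G y (pt G z) = if z = y then 1 else 0 := by
  change (Finsupp.single z (1 : ℤ)) y = _
  rw [Finsupp.single_apply]

theorem co_of {H : Type} [Group H] (h : H) (m : PM H PUnit.{1}) :
    co H PUnit.unit (MonoidAlgebra.of ℤ H h • m) = co H PUnit.unit m := by
  classical
  induction m using PM_induction with
  | h0 => rw [smul_zero]
  | h1 x => rw [of_smul_pt]
  | h2 a b ha hb => rw [smul_add, map_add, ha, hb, map_add]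
  | h3 a ha => rw [smul_neg, map_neg, ha, map_neg]

theorem co_inj {H : Type} [Group H] (m : PM H PUnit.{1}) (h : co H PUnit.unit m = 0) : m = 0 := by
  refine Finsupp.ext fun a => ?_
  exact h

/-- the inclusion of group rings -/
noncomputable abbrev ph : MonoidAlgebra ℤ ↥(stabilizer G x) →+* MonoidAlgebra ℤ G :=
  MonoidAlgebra.mapDomainRingHom ℤ (stabilizer G x).subtype

theorem ph_of (h : ↥(stabilizer G x)) :
    ph x (MonoidAlgebra.of ℤ _ h) = MonoidAlgebra.of ℤ G (h : G) := by
  rw [ph, MonoidAlgebra.mapDomainRingHom_apply, MonoidAlgebra.of_apply,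
    MonoidAlgebra.mapDomain_single]
  rfl

variable {ι : Type} [Fintype ι]

/-- the map given by integers -/
noncomputable def ee (z : ι → ℤ) : (ι → MonoidAlgebra ℤ G) →ₗ[MonoidAlgebra ℤ G] PM G X where
  toFun v := ∑ j, v j • (z j • pt G x)
  map_add' v w := by
    rw [← Finset.sum_add_distrib]
    exact Finset.sum_congr rfl fun j _ => add_smul _ _ _
  map_smul' r v := by
    rw [RingHom.id_apply, Finset.smul_sum]
    exact Finset.sum_congr rfl fun j _ => mul_smul _ _ _

theorem ee_apply (z : ι → ℤ) (v : ι → MonoidAlgebra ℤ G) :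
    ee x z v = ∑ j, v j • (z j • pt G x) := rfl

theorem ph_smul [DecidableEq ι] (e : (ι → MonoidAlgebra ℤ ↥(stabilizer G x))
      →ₗ[MonoidAlgebra ℤ ↥(stabilizer G x)] PM ↥(stabilizer G x) PUnit.{1})
    (j : ι) (r : MonoidAlgebra ℤ ↥(stabilizer G x)) :
    ph x r • (co _ PUnit.unit (e (Pi.single j 1)) • pt G x) =
      co _ PUnit.unit (r • e (Pi.single j 1)) • pt G x := by
  induction r using MonoidAlgebra.induction_on with
  | of h =>
    rw [co_of, ph_of, smul_comm, of_smul_pt]
    have : (h : G) • x = x := h.2
    rw [this]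
  | add a b ha hb => rw [map_add, add_smul, ha, hb, add_smul, map_add, add_smul]
  | smul z a ha =>
    rw [map_zsmul, smul_assoc, ha, smul_assoc, map_zsmul, smul_assoc]

theorem ee_ph [DecidableEq ι] (e : (ι → MonoidAlgebra ℤ ↥(stabilizer G x))
      →ₗ[MonoidAlgebra ℤ ↥(stabilizer G x)] PM ↥(stabilizer G x) PUnit.{1})
    (w : ι → MonoidAlgebra ℤ ↥(stabilizer G x)) :
    ee x (fun j => co _ PUnit.unit (e (Pi.single j 1))) (fun j => ph x (w j)) =
      co _ PUnit.unit (e w) • pt G x := by
  rw [ee_apply]
  have h1 : w = ∑ i, w i • (Pi.single i (1 : MonoidAlgebra ℤ ↥(stabilizer G x)) :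
      ι → MonoidAlgebra ℤ ↥(stabilizer G x)) := by
    funext j
    simp [Finset.sum_apply, Pi.single_apply]
  conv_rhs => rw [h1]
  rw [map_sum, map_sum, Finset.sum_smul]
  refine Finset.sum_congr rfl fun i _ => ?_
  rw [map_smul, ph_smul]

end ind

theorem t_IND : S_IND := by
  classical
  intro G X _ _ x htr hT
  obtain ⟨n, hn⟩ := hT
  obtain ⟨ι, i1, e, he, h1⟩ := FR_succ n _ hn
  obtain ⟨l, i2, A, hA, hres⟩ := Res_of_FR n (LinearMap.ker e) h1
  set f : ↥(stabilizer G x) →* G := (stabilizer G x).subtype with hf
  have hfi : Function.Injective f := Subgroup.subtype_injective _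
  have hrb := RB_group f hfi
  have hmem : ∀ g : G, g ∈ f.range ↔ g • x = x := by
    intro g
    rw [hf, Subgroup.range_subtype]
    exact MulAction.mem_stabilizer_iff
  set z : ι → ℤ := fun j => co _ PUnit.unit (e (Pi.single j 1)) with hz
  have key : ∀ (g : G) (w : ι → MonoidAlgebra ℤ ↥(stabilizer G x)),
      ee x z (fun j => MonoidAlgebra.single g (1 : ℤ) * ph x (w j)) =
        co _ PUnit.unit (e w) • pt G (g • x) := by
    intro g w
    have h2 : (fun j => MonoidAlgebra.single g (1 : ℤ) * ph x (w j)) =
        MonoidAlgebra.of ℤ G g • (fun j => ph x (w j)) := by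
      funext j
      rfl
    rw [h2, map_smul, ee_ph, smul_comm, of_smul_pt]
  have hker : LinearMap.ker (ee x z) = Im (A.map (ph x)) := by
    ext v
    constructor
    · intro hv
      rw [LinearMap.mem_ker] at hv
      choose w hw using fun i => hrb.span (v i)
      set T : Finset (G ⧸ f.range) := Finset.univ.biUnion fun i => (w i).support with hT
      have h2 : v = ∑ q ∈ T, (fun j => MonoidAlgebra.single q.out (1 : ℤ) * ph x (w j q)) := by
        funext i
        rw [Finset.sum_apply, ← hw i]
        apply Finsupp.sum_of_support_subset _ _ _ (fun s _ => by rw [map_zero, mul_zero])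
        intro s hs
        exact Finset.mem_biUnion.2 ⟨i, Finset.mem_univ i, hs⟩
      have h3 : ∑ q ∈ T, co _ PUnit.unit (e (fun j => w j q)) • pt G (q.out • x) = 0 := by
        rw [← hv]
        conv_rhs => rw [h2]
        rw [map_sum]
        exact Finset.sum_congr rfl fun q _ => (key _ _).symm
      have h4 : ∀ q ∈ T, (fun j => w j q) ∈ LinearMap.ker e := by
        intro q hq
        rw [LinearMap.mem_ker]
        apply co_inj
        have h5 := congrArg (co G (q.out • x)) h3
        rw [map_sum, map_zero, Finset.sum_eq_single q] at h5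
        · rw [map_zsmul, co_pt, if_pos rfl, smul_eq_mul, mul_one] at h5
          exact h5
        · intro q' _ hq'
          rw [map_zsmul, co_pt, if_neg, smul_zero]
          intro h6
          apply hq'
          have h7 : q'.out⁻¹ * q.out ∈ f.range := by
            rw [hmem, mul_smul, ← h6, inv_smul_smul]
          have h8 : (QuotientGroup.mk q'.out : G ⧸ f.range) = QuotientGroup.mk q.out :=
            QuotientGroup.eq.2 h7
          have e1 : (QuotientGroup.mk q'.out : G ⧸ f.range) = q' := Quotient.out_eq _
          have e2 : (QuotientGroup.mk q.out : G ⧸ f.range) = q := Quotient.out_eq _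
          rw [e1, e2] at h8
          exact h8
        · intro hq2
          exact absurd hq hq2
      rw [h2]
      refine Submodule.sum_mem _ fun q hq => ?_
      have h5 := h4 q hq
      rw [← hA] at h5
      obtain ⟨y, hy⟩ := h5
      refine ⟨fun a => MonoidAlgebra.single q.out (1 : ℤ) * ph x (y a), ?_⟩
      funext i
      rw [Matrix.vecMulLinear_apply]
      have h6 := congrFun hy i
      rw [Matrix.vecMulLinear_apply] at h6
      simp only [Matrix.vecMul, dotProduct, Matrix.map_apply] at h6 ⊢
      rw [← h6, map_sum, Finset.mul_sum]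
      refine Finset.sum_congr rfl fun a _ => ?_
      rw [map_mul, mul_assoc]
    · rintro ⟨y, rfl⟩
      rw [LinearMap.mem_ker, Matrix.vecMulLinear_apply, Matrix.vecMul_eq_sum, map_sum]
      refine Finset.sum_eq_zero fun a _ => ?_
      rw [map_smul]
      have h2 : A a ∈ LinearMap.ker e := by
        rw [← hA]
        refine ⟨Pi.single a 1, ?_⟩
        rw [Matrix.vecMulLinear_apply, Matrix.single_one_vecMul]
        rfl
      rw [LinearMap.mem_ker] at h2
      have h3 : (A.map (ph x)) a = fun j => ph x (A a j) := rfl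
      rw [h3, ee_ph, h2, map_zero, zero_smul, smul_zero]
  have hsurj : Function.Surjective (ee (G := G) x z) := by
    obtain ⟨w, hw⟩ := he (pt _ PUnit.unit)
    have h2 : ∀ y : X, pt G y ∈ LinearMap.range (ee (G := G) x z) := by
      intro y
      obtain ⟨g, rfl⟩ := htr y
      refine ⟨_, (key g w).trans ?_⟩
      rw [hw, co_pt, if_pos rfl, one_smul]
    intro m
    rw [← LinearMap.mem_range]
    induction m using PM_induction with
    | h0 => exact Submodule.zero_mem _
    | h1 y => exact h2 y
    | h2 a b ha hb => exact Submodule.add_mem _ ha hb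
    | h3 a ha => exact Submodule.neg_mem _ ha
  refine ⟨n + 1, ι, i1, ee x z, hsurj, ?_⟩
  rw [hker]
  exact FR_of_Res n _ (Res_map _ _ _ hrb n A hres)

end Pool.Agent.U678.FFP
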